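import Pool.Agent.H854R3.CR.Stmts2

set_option autoImplicit false

namespace Pool.Agent.H854R3.CR.R1_768

open Pool.Agent.H854R3.NE Pool.Agent.H854R3.CR

theorem coeff_mul_dvd (f g : G) (w : W2) (d : ℤ)
    (h : ∀ u v : W2, u * v = w → d ∣ f.coeff u * g.coeff v) : d ∣ (f * g).coeff w := by
  classical
  rw [MonoidAlgebra.coeff_mul]
  refine Finset.dvd_sum fun u _ => Finset.dvd_sum fun v _ => ?_
  dsimp only
  split_ifs with h1
  · exact h u v h1
  · exact dvd_zero d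

theorem geZ_mul {k l : ℕ} {f g : G} (hf : GeZ k f) (hg : GeZ l g) : GeZ (k + l) (f * g) := by
  intro w hw
  by_contra hlt
  apply hw
  rw [← zero_dvd_iff]
  apply coeff_mul_dvd
  intro u v huv
  rw [zero_dvd_iff]
  by_contra hne
  have h1 : k ≤ u.length := hf u (left_ne_zero_of_mul hne)
  have h2 : l ≤ v.length := hg v (right_ne_zero_of_mul hne)
  apply hlt
  rw [← huv, FreeMonoid.length_mul]
  omega

theorem geZ_zero (k : ℕ) : GeZ k 0 := by
  intro w hw
  exact absurd (by simp) hw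

theorem geZ_add {k : ℕ} {f g : G} (hf : GeZ k f) (hg : GeZ k g) : GeZ k (f + g) := by
  intro w hw
  rw [MonoidAlgebra.coeff_add, Finsupp.add_apply] at hw
  by_cases h : f.coeff w = 0
  · apply hg w
    intro h2
    exact hw (by rw [h, h2, add_zero])
  · exact hf w h

theorem geZ_neg {k : ℕ} {f : G} (hf : GeZ k f) : GeZ k (-f) := by
  intro w hw
  rw [MonoidAlgebra.coeff_neg, Finsupp.neg_apply] at hw
  exact hf w (fun h => hw (by rw [h, neg_zero]))

theorem geZ_mono {k l : ℕ} {f : G} (hf : GeZ k f) (h : l ≤ k) : GeZ l f :=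
  fun w hw => h.trans (hf w hw)

theorem geZ_red {k : ℕ} {f : G} (hf : GeZ k f) : GeF k (red f) := by
  intro w hw
  apply hf w
  intro h
  apply hw
  unfold CR.red
  rw [MonoidAlgebra.coeff_mapRingHom, h]
  simp

theorem geZ_gx : GeZ 1 gx := by
  classical
  intro w hw
  unfold gx at hw
  rw [MonoidAlgebra.coeff_single, Finsupp.single_apply] at hw
  by_cases h : FreeMonoid.of 0 = w
  · rw [← h, FreeMonoid.length_of]
  · rw [if_neg h] at hw
    exact absurd rfl hw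

theorem geZ_gy : GeZ 1 gy := by
  classical
  intro w hw
  unfold gy at hw
  rw [MonoidAlgebra.coeff_single, Finsupp.single_apply] at hw
  by_cases h : FreeMonoid.of 1 = w
  · rw [← h, FreeMonoid.length_of]
  · rw [if_neg h] at hw
    exact absurd rfl hw

theorem geZ_comm : GeZ 2 (gx * gy - gy * gx) := by
  rw [sub_eq_add_neg]
  exact geZ_add (geZ_mul geZ_gx geZ_gy) (geZ_neg (geZ_mul geZ_gy geZ_gx))

theorem comm_coeff {w : W2} (h : w.length ≤ 1) : (gx * gy - gy * gx).coeff w = 0 := by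
  by_contra hne
  have := geZ_comm w hne
  omega

/-- the ring of polynomials without constant term -/
noncomputable def Gp : NonUnitalSubring G where
  carrier := {f | GeZ 1 f}
  zero_mem' := geZ_zero 1
  add_mem' := fun ha hb => geZ_add ha hb
  neg_mem' := fun ha => geZ_neg ha
  mul_mem' := fun ha hb => geZ_mono (geZ_mul ha hb) (by norm_num)

theorem val_add (s t : ZMod 2) : (4 : ℤ) ∣ 2 * (s.val : ℤ) + 2 * (t.val : ℤ) - 2 * ((s + t).val : ℤ) := by
  revert s t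
  decide

theorem val_neg (s : ZMod 2) : (4 : ℤ) ∣ 2 * (s.val : ℤ) + 2 * ((-s).val : ℤ) := by
  revert s
  decide

section

variable (I : Submodule (ZMod 2) F) (ℓ : F →ₗ[ZMod 2] ZMod 2)

theorem inJ_zero : InJ I ℓ 0 := by
  refine ⟨by rw [map_zero]; exact I.zero_mem, fun w _ => ?_⟩
  rw [map_zero, map_zero]
  simp

variable {I ℓ}

theorem inJ_add {f g : G} (hf : InJ I ℓ f) (hg : InJ I ℓ g) : InJ I ℓ (f + g) := by
  refine ⟨by rw [map_add]; exact I.add_mem hf.1 hg.1, fun w hw => ?_⟩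
  have h1 := hf.2 w hw
  have h2 := hg.2 w hw
  have h3 := val_add (ℓ (CR.red f)) (ℓ (CR.red g))
  rw [map_add, map_add, MonoidAlgebra.coeff_add, Finsupp.add_apply]
  obtain ⟨a, ha⟩ := h1
  obtain ⟨b, hb⟩ := h2
  obtain ⟨e, he⟩ := h3
  exact ⟨a + b + e * (gx * gy - gy * gx).coeff w, by
    linear_combination ha + hb + (gx * gy - gy * gx).coeff w * he⟩

theorem inJ_neg {f : G} (hf : InJ I ℓ f) : InJ I ℓ (-f) := by
  refine ⟨by rw [map_neg]; exact I.neg_mem hf.1, fun w hw => ?_⟩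
  have h1 := hf.2 w hw
  have h3 := val_neg (ℓ (CR.red f))
  rw [map_neg, map_neg, MonoidAlgebra.coeff_neg, Finsupp.neg_apply]
  obtain ⟨a, ha⟩ := h1
  obtain ⟨e, he⟩ := h3
  exact ⟨-a - e * (gx * gy - gy * gx).coeff w, by
    linear_combination -ha - (gx * gy - gy * gx).coeff w * he⟩

theorem inJ_dvd_coeff {f : G} (hf : InJ I ℓ f) {w : W2} (hw : w.length ≤ 1) :
    (4 : ℤ) ∣ f.coeff w := by
  have h1 := hf.2 w (by omega)
  rw [comm_coeff hw, mul_zero, sub_zero] at h1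
  exact h1

theorem inJ_mul_left (h2 : C2 I ℓ) {f g : G} (hf : InJ I ℓ f) (hg : GeZ 1 g) :
    InJ I ℓ (g * f) := by
  obtain ⟨ha, _, hb, _⟩ := h2 (CR.red f) hf.1 (CR.red g) (geZ_red hg)
  refine ⟨by rw [map_mul]; exact ha, fun w hw => ?_⟩
  rw [map_mul, hb]
  simp only [ZMod.val_zero, Nat.cast_zero, mul_zero, zero_mul, sub_zero]
  apply coeff_mul_dvd
  intro u v huv
  by_cases hu : g.coeff u = 0
  · rw [hu, zero_mul]
    exact dvd_zero _
  · have h3 : 1 ≤ u.length := hg u hu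
    have h4 : v.length ≤ 1 := by
      rw [← huv, FreeMonoid.length_mul] at hw
      omega
    exact (inJ_dvd_coeff hf h4).mul_left _

theorem inJ_mul_right (h2 : C2 I ℓ) {f g : G} (hf : InJ I ℓ f) (hg : GeZ 1 g) :
    InJ I ℓ (f * g) := by
  obtain ⟨_, ha, _, hb⟩ := h2 (CR.red f) hf.1 (CR.red g) (geZ_red hg)
  refine ⟨by rw [map_mul]; exact ha, fun w hw => ?_⟩
  rw [map_mul, hb]
  simp only [ZMod.val_zero, Nat.cast_zero, mul_zero, zero_mul, sub_zero]
  apply coeff_mul_dvd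
  intro u v huv
  by_cases hv : g.coeff v = 0
  · rw [hv, mul_zero]
    exact dvd_zero _
  · have h3 : 1 ≤ v.length := hg v hv
    have h4 : u.length ≤ 1 := by
      rw [← huv, FreeMonoid.length_mul] at hw
      omega
    exact (inJ_dvd_coeff hf h4).mul_right _

end

theorem taskR1 : TaskR1 := by
  classical
  intro I ℓ _ h2
  let J : TwoSidedIdeal Gp := TwoSidedIdeal.mk' {x : Gp | InJ I ℓ (x : G)}
    (inJ_zero I ℓ)
    (fun {x y} hx hy => inJ_add hx hy)
    (fun {x} hx => inJ_neg hx)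
    (fun {x y} hy => inJ_mul_left h2 hy x.2)
    (fun {x y} hx => inJ_mul_right h2 hx y.2)
  obtain ⟨Q, inst, φ, hφ, hker⟩ := exists_quot J
  have hJ : ∀ x : Gp, x ∈ J ↔ InJ I ℓ (x : G) := fun x => TwoSidedIdeal.mem_mk' _ _ _ _ _ _ x
  refine ⟨Q, inst, fun f => if h : GeZ 1 f then φ ⟨f, h⟩ else 0, ?_, ?_, ?_⟩
  · intro f g hf hg
    have h3 : GeZ 1 (f + g) := geZ_add hf hg
    have h4 : GeZ 1 (f * g) := geZ_mono (geZ_mul hf hg) (by norm_num)
    dsimp only
    rw [dif_pos hf, dif_pos hg, dif_pos h3, dif_pos h4]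
    exact ⟨map_add φ ⟨f, hf⟩ ⟨g, hg⟩, map_mul φ ⟨f, hf⟩ ⟨g, hg⟩⟩
  · intro r
    obtain ⟨⟨f, hf⟩, rfl⟩ := hφ r
    exact ⟨f, hf, dif_pos hf⟩
  · intro f hf
    dsimp only
    rw [dif_pos hf]
    exact (hker ⟨f, hf⟩).trans (hJ ⟨f, hf⟩)

end Pool.Agent.H854R3.CR.R1_768
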